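import Pool.Agent.WAX.Stmts
import Pool.Agent.AT8.Stmts4
import Pool.Agent.Helper34_K9.INX

/-!
# Squad WAX, row BNK: the bound from the averages over the cosets of `V ^ (ℓ ^ k)`
-/

open scoped BigOperators

set_option autoImplicit false

noncomputable section

namespace Pool.Agent.PP.TX.H82

open Pool.Agent.Helper51_AWC Pool.Agent.Helper79_WRA Pool.Agent.PP Pool.Agent.PP.KF
open Pool.Agent.PP.K9 Pool.Agent.PP.K9.H97 Pool.Agent.PP.H75 Pool.Agent.PP.T3 Pool.Agent.PP.T2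
open Pool.Agent.PP.T8 (Rv Fq Fr Ei Hk Rk Fd In)

attribute [local instance] Ideal.Quotient.field

theorem bnk (hPR : T2.Pr2Stmt) (hFX : T2.FxsStmt) (hST : T2.StgStmt) (hDA : T8.DatStmt)
    (hHG : T8.HgtStmt) (hBN : T8.Bn8Stmt) (rtr : T8.RtrStmt) (hkx : T8.HkxStmt) : BnkStmt := by
  intro ℓ _ M _ hM h2 G _ _ e V γ hL a k hk hka hexp hei hhk
  have hpr : ℓ.Prime := Fact.out
  have ha : 0 < a := lt_of_lt_of_le hk hka
  have hF : GoodF ℓ (FF M) := H50.fld ℓ Fact.out M hM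
  have hixd : ¬ ℓ ∣ ix V γ :=
    K9.H34.inx ℓ M hM G e hL.blk V hL.tp hL.ab γ hL.gam.supp hL.gam.blk hL.und
  obtain ⟨y, hy⟩ := (rtr ℓ (FF M) hF G e V γ hL hixd a hexp).1 ha hei
  have hix := hkx ℓ (FF M) hF G e V γ hL hixd a k hk ha hexp ⟨y, hy⟩ hhk
  have hyk : Rk ℓ a k V γ y := by
    refine ⟨hy.mem, hy.ord, fun t ht v hv he => ?_⟩
    refine hy.reg t ht (v ^ ℓ ^ (k - 1)) (V.pow_mem hv _) ?_
    rw [he, ← pow_mul, ← pow_add]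
    congr 3
    omega
  obtain ⟨N, hN⟩ := hPR ℓ h2 G
  obtain ⟨b, d, c, ε, hD⟩ := hDA ℓ M hM G e V γ hL
  have h3 := hFX ℓ M hM G N hN e hL.blk.1 (fun y hy hy2 b hb heb g hg =>
    hST ℓ M hM G N hN e V γ hL y hy hy2 b hb heb g hg)
  have h4 := hHG ℓ M hM h2 G e V γ b d c ε hD a k ha hexp hix
  have h5 := hBN ℓ M hM h2 G N hN e V γ b d c ε hD a k hk hka hexp y hyk h4
  obtain ⟨W, hW⟩ : ∃ W : ℕ, W = Nat.card (Uw (ℓ ^ k) V) := ⟨_, rfl⟩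
  rw [← hW] at h5 ⊢
  calc ln e * ℓ ^ (k - 1) * W = ln e * (ℓ ^ (k - 1) * W) := mul_assoc _ _ _
    _ ≤ _ * (ℓ ^ (k - 1) * W) := Nat.mul_le_mul_right _ h3
    _ = _ := (mul_assoc _ _ _).symm
    _ ≤ Nat.card V := h5

end Pool.Agent.PP.TX.H82
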